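import Mathlib
import Pool.Agent.Q264.MU.Fin

set_option autoImplicit false

/-! # For which number fields are only finitely many positive integers sums of `m` units? -/

namespace Pool.Agent.Results.MP_c80192_nt.FinitenessCriterion

open NumberField

/-- **Q1 for every `m`.** The set of the positive integers that are sums of `m` units of `K` is
finite if and only if every subfield `F` of `K` of degree at most `m` that lies in a subfield of
`K` Galois over `ℚ` (that is, whose Galois closure is contained in `K`) is `ℚ` or an imaginary
quadratic field. -/
theorem result (K : Type) [Field K] [NumberField K] (m : ℕ) :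
    {n : ℕ | 0 < n ∧ ∃ u : Fin m → (𝓞 K)ˣ, (n : K) = ∑ i, ((u i : 𝓞 K) : K)}.Finite ↔
      ∀ F M : IntermediateField ℚ K, F ≤ M → IsGalois ℚ M → Module.finrank ℚ F ≤ m →
        (F = ⊥ ∨ (Module.finrank ℚ F = 2 ∧ IsTotallyComplex F)) :=
  Pool.Agent.Q264.MU.criterion K m

end Pool.Agent.Results.MP_c80192_nt.FinitenessCriterion
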